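import Pool.Agent.W206.ND.Main
import Pool.Agent.W206.ND.AP

/-!
# Normality of all tuples of algebraic numbers and the frequency of the digit `0`

The conjecture for base `b` (all tuples, all digit matrices) is equivalent to a one-sided bound for
the frequency of the single digit `0` in single irrational algebraic numbers.
-/

set_option autoImplicit false

namespace Pool.Agent.Results.MP_c8ecb2_nt.FrequencyOfZero

open Filter

/-- The tuple `ξ` is normal to base `b` (verbatim the condition in the frozen statement `S18461`):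
every `n × m` digit matrix `D` has the limiting frequency `b ^ (-(m * n))`. -/
def Normal (b : ℕ) {n : ℕ} (ξ : Fin n → ℝ) : Prop :=
  ∀ (m : ℕ), 1 ≤ m → ∀ D : Fin n → Fin m → Fin b,
    Filter.Tendsto
      (fun N : ℕ =>
        (((Finset.filter
            (fun i : ℕ => ∀ j : Fin n, ∀ t : Fin m,
              Int.floor (ξ j * (b : ℝ) ^ (i + (t : ℕ))) % (b : ℤ) = (((D j t : ℕ)) : ℤ))
            (Finset.Icc 1 N)).card : ℝ) / (N : ℝ)))
      Filter.atTop (nhds (1 / (b : ℝ) ^ (m * n)))

/-- The number of `i` with `1 ≤ i ≤ N` for which the `i`-th digit of `x` in base `b` is `0`. -/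
noncomputable def zeros (b : ℕ) (x : ℝ) (N : ℕ) : ℕ :=
  (Finset.filter (fun i : ℕ => Int.floor (x * (b : ℝ) ^ i) % (b : ℤ) = 0) (Finset.Icc 1 N)).card

/-- The upper frequency of the digit `0` in the base-`b` expansion of `x` is at most `1 / b`:
for every `ε > 0` at most `(1 / b + ε) N` of the first `N` digits are `0`, for all large `N`. -/
def FewZeros (b : ℕ) (x : ℝ) : Prop :=
  ∀ ε : ℝ, 0 < ε → ∀ᶠ N : ℕ in atTop, (zeros b x N : ℝ) ≤ (1 / (b : ℝ) + ε) * N

/-- Let `b ≥ 2`.

(1) The conjecture for base `b` (every tuple of real algebraic numbers that is linearly independent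
together with `1` over `ℚ` is normal to base `b`) holds if and only if in every irrational real
algebraic number the upper frequency of the digit `0` is at most `1 / b`.

(2) A tuple `ξ` of real numbers is normal to base `b` if and only if in all the numbers
`h_1 ξ_1 + ... + h_n ξ_n + r` (`h ≠ 0` an integer vector, `r` rational) the upper frequency of the
digit `0` is at most `1 / b`.

(3) A real number `x` is normal to base `b` if and only if in all the numbers `x + r` (`r`
rational) the upper frequency of the digit `0` is at most `1 / b`. -/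
theorem result (b : ℕ) (hb : 2 ≤ b) :
    ((∀ (n : ℕ) (α : Fin n → ℝ), (∀ j, IsAlgebraic ℚ (α j)) →
        LinearIndependent ℚ (Matrix.vecCons (1 : ℝ) α) → Normal b α) ↔
      ∀ x : ℝ, IsAlgebraic ℚ x → Irrational x → FewZeros b x) ∧
    (∀ (n : ℕ) (ξ : Fin n → ℝ),
      Normal b ξ ↔ ∀ h : Fin n → ℤ, h ≠ 0 → ∀ r : ℚ, FewZeros b (∑ j, (h j : ℝ) * ξ j + r)) ∧
    ∀ x : ℝ, Normal b ![x] ↔ ∀ r : ℚ, FewZeros b (x + r) :=
  W206.ND.final_of W206.ND.AP.main b hb

end Pool.Agent.Results.MP_c8ecb2_nt.FrequencyOfZero
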