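import Pool.Agent.W44.ExpTwoAll

/-!
The digit matrices of an independent tuple of real algebraic numbers leave every rational affine
hyperplane at least `c (log N)^2 / (log log N)^3` times.
-/

set_option autoImplicit false

namespace Pool.Agent.Results.MP_c8ecb2_nt.MatricesOffHyperplanes

open Finset

/-- the `k`-th digit after the point of `x` in base `b` -/
noncomputable def digit (b : ℕ) (x : ℝ) (k : ℕ) : ℤ := ⌊(b : ℝ) ^ k * x⌋ % b

/-- Let `b ≥ 2` and let `α_1, …, α_n` be real algebraic numbers such that `1, α_1, …, α_n` are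
linearly independent over `ℚ`. Let `D_k` be the `n × m` matrix of the base `b` digits
`a_{j,k}, …, a_{j,k+m-1}` of the `α_j` at the places `k, …, k+m-1`. Let `q` be a nonzero `n × m`
integer matrix and `e` an integer. Then for all large `N` the matrix `D_k` is off the hyperplane
`∑ q_{j,t} x_{j,t} = e` for at least `c (log N)^2 / (log log N)^3` of the `1 ≤ k ≤ N`. -/
theorem result (b n : ℕ) (hb : 2 ≤ b) (α : Fin n → ℝ) (halg : ∀ j, IsAlgebraic ℚ (α j))
    (hind : ∀ (q0 : ℚ) (q : Fin n → ℚ), (q0 : ℝ) + ∑ j, (q j : ℝ) * α j = 0 → q0 = 0 ∧ q = 0)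
    (m : ℕ) (q : Fin n → Fin m → ℤ) (hq : q ≠ 0) (e : ℤ) :
    ∃ c : ℝ, 0 < c ∧ ∃ N0 : ℕ, ∀ N : ℕ, N0 ≤ N →
      c * (Real.log N) ^ 2 / (Real.log (Real.log N)) ^ 3 ≤
        (((Icc 1 N).filter (fun k : ℕ =>
          ∑ j, ∑ t : Fin m, q j t * digit b (α j) (k + t) ≠ e)).card : ℝ) := by
  obtain ⟨j0, t0, hjt⟩ : ∃ j t, q j t ≠ 0 := by
    by_contra hcon
    push Not at hcon
    exact hq (by funext j t; exact hcon j t)
  have hm : 1 ≤ m := Nat.succ_le_of_lt (lt_of_le_of_lt (Nat.zero_le _) t0.2)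
  have hirr : ∀ z : Fin n → ℤ, z ≠ 0 → Irrational (∑ i, (z i : ℝ) * α i) := by
    intro z hz hrat
    obtain ⟨r, hr⟩ := hrat
    have h := hind (-r) (fun i => (z i : ℚ)) (by
      push_cast
      rw [hr]; ring)
    apply hz
    funext i
    have := congrFun h.2 i
    simpa using this
  obtain ⟨c, hc, N0, h⟩ := Pool.Agent.W44.tuple_nontrivial α halg hirr b hb (m - 1)
    (fun j t => if ht : t < m then q j ⟨t, ht⟩ else 0) ⟨j0, t0, by omega, by
      simpa using hjt⟩ e
  refine ⟨c, hc, N0, fun N hN => (h N hN).trans (le_of_eq ?_)⟩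
  congr 2
  apply Finset.filter_congr
  intro k _
  have : ∀ j, ∑ t ∈ range (m - 1 + 1), (if ht : t < m then q j ⟨t, ht⟩ else 0) *
      Pool.Agent.H393R2.DC.digit b (α j) (k + t) =
      ∑ t : Fin m, q j t * digit b (α j) (k + t) := by
    intro j
    rw [Nat.sub_add_cancel hm, Finset.sum_range]
    apply Finset.sum_congr rfl
    intro t _
    rw [dif_pos t.2]
    rfl
  simp only [this]

end Pool.Agent.Results.MP_c8ecb2_nt.MatricesOffHyperplanes
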